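import Pool.Agent.Lib.P8e9337.DiaM
import Pool.Agent.Lib.P8e9337.DiaZ

/-! # MP_8e9337_gt: the answer to Q1 is not decided by ZFC

Some model of ZFC satisfies Jensen's diamond principle, and if the structure `(ZFSet, ∈)` satisfies
it then there is a Hausdorff `s`-group of countable tightness which is a `k`-space and is not
sequential. Under the Moore-Mrowka statement (a consequence of the proper forcing axiom) every
Hausdorff group of countable tightness which is a `k`-space is sequential. -/

namespace Pool.Agent.Results.MP_8e9337_gt.Undecidable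

open _root_.P8e9337 Pool.Agent.Lib.BVM

theorem result :
    (∃ (M : Type 1) (E : M → M → Prop), ModelZFC M E ∧ DiamondIn E) ∧
    (DiamondIn (fun x y : ZFSet.{0} => x ∈ y) →
      ∃ (G : Type) (_ : Group G) (τ : TopologicalSpace G), IsTopologicalGroup G ∧ T2Space G ∧
        IsSGroup G τ ∧ CountablyTight G ∧ IsKSpace G ∧ ¬ SequentialSpace G) ∧
    (MooreMrowka →
      ∀ (G : Type) [Group G] (τ : TopologicalSpace G), IsTopologicalGroup G → T2Space G →
        IsSGroup G τ → CountablyTight G → IsKSpace G → SequentialSpace G) := by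
  refine ⟨Pool.Agent.Lib.P8e9337.Dia.exists_model, fun hD => ?_,
    fun hM G _ τ _ _ _ ht hk => sequential_of_mooreMrowka hM G ht hk⟩
  obtain ⟨K, _, p, X, h⟩ := Pool.Agent.Lib.P8e9337.DiaZ.goodK hD
  exact group_of_goodK h

end Pool.Agent.Results.MP_8e9337_gt.Undecidable
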